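import Mathlib
import Pool.Agent.L5helper13.KM.Lead

set_option autoImplicit false

namespace Pool.Agent.Results.MP_631557_ag.DegreeOnOneLine

open MvPolynomial

/-- Let `F`, `G` be Keller maps of the plane which agree on two lines `p + t u`, `p + t v` through a
point `p` (for `p = 0` and the coordinate directions: on the coordinate cross), and `a, b` not both 0.
(1) If `a G₁ + b G₂` has degree `r ≥ 1` on the line `p + t u` and `a (F₁ - G₁) + b (F₂ - G₂)` has total
degree at most `r + 1`, then `F = G`.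
(2) If the leading forms of `a F₁ + b F₂` and of `a G₁ + b G₂` do not vanish at `u`, then `F = G`. -/
theorem result :
    ∀ F₁ F₂ G₁ G₂ : MvPolynomial (Fin 2) ℂ,
      pderiv 0 F₁ * pderiv 1 F₂ - pderiv 1 F₁ * pderiv 0 F₂ = 1 →
      pderiv 0 G₁ * pderiv 1 G₂ - pderiv 1 G₁ * pderiv 0 G₂ = 1 →
      ∀ p u v : Fin 2 → ℂ, u 0 * v 1 - u 1 * v 0 ≠ 0 →
      (∀ t : ℂ, eval (p + t • u) F₁ = eval (p + t • u) G₁ ∧
        eval (p + t • u) F₂ = eval (p + t • u) G₂) →
      (∀ t : ℂ, eval (p + t • v) F₁ = eval (p + t • v) G₁ ∧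
        eval (p + t • v) F₂ = eval (p + t • v) G₂) →
      ∀ a b : ℂ, ¬ (a = 0 ∧ b = 0) →
      (1 ≤ (aeval (fun j => Polynomial.C (p j) + Polynomial.C (u j) * Polynomial.X)
            (C a * G₁ + C b * G₂)).natDegree →
        (C a * (F₁ - G₁) + C b * (F₂ - G₂)).totalDegree ≤
          1 + (aeval (fun j => Polynomial.C (p j) + Polynomial.C (u j) * Polynomial.X)
            (C a * G₁ + C b * G₂)).natDegree →
        F₁ = G₁ ∧ F₂ = G₂) ∧
      (eval u (homogeneousComponent (C a * F₁ + C b * F₂).totalDegree (C a * F₁ + C b * F₂)) ≠ 0 →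
        eval u (homogeneousComponent (C a * G₁ + C b * G₂).totalDegree (C a * G₁ + C b * G₂)) ≠ 0 →
        F₁ = G₁ ∧ F₂ = G₂) := by
  intro F₁ F₂ G₁ G₂ hF hG p u v huv hu hv a b hab
  exact ⟨Pool.Agent.L5helper13.KM.drop_lines F₁ F₂ G₁ G₂ hF hG p u v huv hu hv a b hab,
    Pool.Agent.L5helper13.KM.lead_lines F₁ F₂ G₁ G₂ hF hG p u v huv hu hv a b hab⟩

end Pool.Agent.Results.MP_631557_ag.DegreeOnOneLine
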