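import Mathlib
import Pool.Agent.L5helper13.KM.Alg

set_option autoImplicit false

namespace Pool.Agent.Results.MP_631557_ag.FinitelyManyKeller

open MvPolynomial

/-- (1) For all polynomials `G₁, G₂` and every `d`, only finitely many Keller maps `F` of degree at
most `d` agree with `(G₁, G₂)` at every point of the coordinate cross.
(2) Without a degree bound there are at most countably many.
(3) If the coefficients of the restriction of a Keller map `F` to the cross lie in a subfield `k` of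
`ℂ`, then all coefficients of `F` are algebraic over `k`. -/
theorem result :
    (∀ (G₁ G₂ : MvPolynomial (Fin 2) ℂ) (d : ℕ),
      {F : MvPolynomial (Fin 2) ℂ × MvPolynomial (Fin 2) ℂ |
        pderiv 0 F.1 * pderiv 1 F.2 - pderiv 1 F.1 * pderiv 0 F.2 = 1 ∧
        F.1.totalDegree ≤ d ∧ F.2.totalDegree ≤ d ∧
        ∀ v : Fin 2 → ℂ, v 0 * v 1 = 0 → eval v F.1 = eval v G₁ ∧ eval v F.2 = eval v G₂}.Finite) ∧
    (∀ G₁ G₂ : MvPolynomial (Fin 2) ℂ,
      {F : MvPolynomial (Fin 2) ℂ × MvPolynomial (Fin 2) ℂ |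
        pderiv 0 F.1 * pderiv 1 F.2 - pderiv 1 F.1 * pderiv 0 F.2 = 1 ∧
        ∀ v : Fin 2 → ℂ, v 0 * v 1 = 0 →
          eval v F.1 = eval v G₁ ∧ eval v F.2 = eval v G₂}.Countable) ∧
    (∀ (k : Subfield ℂ) (F₁ F₂ : MvPolynomial (Fin 2) ℂ),
      pderiv 0 F₁ * pderiv 1 F₂ - pderiv 1 F₁ * pderiv 0 F₂ = 1 →
      (∀ e : Fin 2 →₀ ℕ, (e 0 = 0 ∨ e 1 = 0) → coeff e F₁ ∈ k ∧ coeff e F₂ ∈ k) →
      ∀ e : Fin 2 →₀ ℕ, IsAlgebraic k (coeff e F₁) ∧ IsAlgebraic k (coeff e F₂)) :=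
  ⟨Pool.Agent.L5helper13.KM.finite_keller, Pool.Agent.L5helper13.KM.countable_keller,
    Pool.Agent.L5helper13.KM.alg_keller⟩

end Pool.Agent.Results.MP_631557_ag.FinitelyManyKeller
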