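import Mathlib
import Pool.Agent.L5helper13.KM.Coll

set_option autoImplicit false

namespace Pool.Agent.Results.MP_631557_ag.NoThreeOnALine

open MvPolynomial

/-- Let `F`, `G` be Keller maps of the plane which agree at every point of the coordinate cross. If
the Jacobian determinant of `F - G` is identically zero, or if `t F + (1 - t) G` is a Keller map for
some complex number `t` other than `0` and `1`, then `F = G`. -/
theorem result :
    ∀ F₁ F₂ G₁ G₂ : MvPolynomial (Fin 2) ℂ,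
      pderiv 0 F₁ * pderiv 1 F₂ - pderiv 1 F₁ * pderiv 0 F₂ = 1 →
      pderiv 0 G₁ * pderiv 1 G₂ - pderiv 1 G₁ * pderiv 0 G₂ = 1 →
      (∀ v : Fin 2 → ℂ, v 0 * v 1 = 0 → eval v F₁ = eval v G₁ ∧ eval v F₂ = eval v G₂) →
      ((pderiv 0 (F₁ - G₁) * pderiv 1 (F₂ - G₂) - pderiv 1 (F₁ - G₁) * pderiv 0 (F₂ - G₂) = 0) ∨
        (∃ t : ℂ, t ≠ 0 ∧ t ≠ 1 ∧
          pderiv 0 (C t * F₁ + C (1 - t) * G₁) * pderiv 1 (C t * F₂ + C (1 - t) * G₂)
            - pderiv 1 (C t * F₁ + C (1 - t) * G₁) * pderiv 0 (C t * F₂ + C (1 - t) * G₂) = 1)) →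
      F₁ = G₁ ∧ F₂ = G₂ := by
  rintro F₁ F₂ G₁ G₂ hF hG hZ (h | ⟨t, h0, h1, h⟩)
  · exact Pool.Agent.L5helper13.KM.collinear F₁ F₂ G₁ G₂ hF hG hZ h
  · exact Pool.Agent.L5helper13.KM.third F₁ F₂ G₁ G₂ hF hG hZ t h0 h1 h

end Pool.Agent.Results.MP_631557_ag.NoThreeOnALine
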